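import Mathlib

/-!
Points which almost return under two multiplications with many common fixed points: arithmetic.
-/

set_option autoImplicit false

open MeasureTheory

namespace Pool.Agent.N254.FP

/-- the circle -/
abbrev T := UnitAddCircle

lemma nsmul_coe (n : ℕ) (y : ℝ) : n • (y : T) = ((n * y : ℝ) : T) := by
  rw [← AddCircle.coe_nsmul, nsmul_eq_mul]

lemma norm_coe (y : ℝ) : ‖(y : T)‖ = |y - round y| := by
  rw [UnitAddCircle.norm_eq]

lemma norm_coe_le (y : ℝ) : ‖(y : T)‖ ≤ |y| := by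
  rw [norm_coe]
  have := round_le y 0
  simpa using this

lemma norm_coe_int (y : ℝ) (k : ℤ) : ‖(y : T)‖ ≤ |y - k| := by
  rw [norm_coe]
  exact round_le y k

lemma exists_rep (x : T) : ∃ y : ℝ, (y : T) = x ∧ |y| = ‖x‖ := by
  obtain ⟨y, rfl⟩ := QuotientAddGroup.mk_surjective x
  refine ⟨y - round y, ?_, ?_⟩
  · rw [AddCircle.coe_sub]
    have h : ((round y : ℝ) : T) = 0 := by
      rw [AddCircle.coe_eq_zero_iff]
      exact ⟨round y, by simp⟩
    rw [h, sub_zero]
  · exact (norm_coe y).symm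

lemma norm_coe_eq {y : ℝ} (h : |y| ≤ 1 / 2) : ‖(y : T)‖ = |y| := by
  apply le_antisymm (norm_coe_le y)
  rw [norm_coe]
  by_cases hr : round y = 0
  · rw [hr]; simp
  · have h1 : (1 : ℝ) ≤ |(round y : ℝ)| := by
      have : (1 : ℤ) ≤ |round y| := Int.one_le_abs hr
      exact_mod_cast this
    have h2 : |(round y : ℝ)| ≤ |y| + |y - round y| := by
      have := abs_sub_abs_le_abs_sub (round y : ℝ) y
      rw [abs_sub_comm (round y : ℝ) y] at this
      linarith
    linarith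

/-- Two small multiples with coprime multipliers. -/
lemma core_arith {m n : ℕ} (hn : 1 ≤ n) (hco : m.Coprime n) {s : ℝ}
    (hs : s * (m + n) < 1) {y : T} (h1 : ‖m • y‖ ≤ s) (h2 : ‖n • y‖ ≤ s) : n * ‖y‖ ≤ s := by
  obtain ⟨y, rfl⟩ := QuotientAddGroup.mk_surjective y
  change ‖m • ((y : ℝ) : T)‖ ≤ s at h1
  change ‖n • ((y : ℝ) : T)‖ ≤ s at h2
  rw [nsmul_coe, norm_coe] at h1 h2
  set k := round ((m : ℝ) * y) with hk
  set l := round ((n : ℝ) * y) with hl
  have hnR : (1 : ℝ) ≤ n := by exact_mod_cast hn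
  have h3 : |((n * k - m * l : ℤ) : ℝ)| < 1 := by
    push_cast
    have e : (n : ℝ) * k - m * l = m * ((n : ℝ) * y - l) - n * ((m : ℝ) * y - k) := by ring
    rw [e]
    refine lt_of_le_of_lt (abs_sub _ _) ?_
    rw [abs_mul, abs_mul, Nat.abs_cast, Nat.abs_cast]
    have h4 : (m : ℝ) * |(n : ℝ) * y - l| ≤ m * s :=
      mul_le_mul_of_nonneg_left h2 (Nat.cast_nonneg _)
    have h5 : (n : ℝ) * |(m : ℝ) * y - k| ≤ n * s :=
      mul_le_mul_of_nonneg_left h1 (Nat.cast_nonneg _)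
    linarith
  have h4 : (n : ℤ) * k - m * l = 0 := by
    by_contra hne
    have h5 : (1 : ℤ) ≤ |(n : ℤ) * k - m * l| := Int.one_le_abs hne
    have h6 : (1 : ℝ) ≤ |(((n : ℤ) * k - m * l : ℤ) : ℝ)| := by exact_mod_cast h5
    linarith
  have h5 : (n : ℤ) ∣ m * l := ⟨k, by linarith⟩
  have h6 : (n : ℤ) ∣ l := by
    apply Int.dvd_of_dvd_mul_right_of_gcd_one h5
    rw [Int.gcd_natCast_natCast]
    exact hco.symm
  obtain ⟨l', hl'⟩ := h6
  have h7 : ‖((y : ℝ) : T)‖ ≤ |y - l'| := norm_coe_int y l'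
  have h8 : (n : ℝ) * |y - l'| = |(n : ℝ) * y - l| := by
    rw [hl']
    push_cast
    rw [← mul_sub, abs_mul, Nat.abs_cast]
  calc (n : ℝ) * ‖((y : ℝ) : T)‖ ≤ n * |y - l'| := by gcongr
    _ = |(n : ℝ) * y - l| := h8
    _ ≤ s := h2

/-- No jumps between different fixed points. -/
lemma core2_arith {m n g p q : ℕ} (hmn : m < n) (hco : m.Coprime n) (hp : p = m * g + 1)
    (hq : q = n * g + 1) {R η : ℝ} (hR : 1 ≤ R) (hg : 16 * R < g) (hn : 6 * R < n)
    (hη : η = 2 * R / (n * g)) {y : T} (h0 : ‖y‖ ≤ η) (h1 : ‖p • y‖ ≤ η) (h2 : ‖q • y‖ ≤ η) :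
    ‖p • y‖ = p * ‖y‖ := by
  obtain ⟨y, rfl, hy⟩ := exists_rep y
  rw [← hy] at h0
  have hgR : (16 : ℝ) < g := by linarith
  have hnR : (6 : ℝ) < n := by linarith
  have hng : 0 < (n : ℝ) * g := by nlinarith
  have hng1 : (96 : ℝ) ≤ (n : ℝ) * g := by nlinarith
  have hη0 : 0 < η := by rw [hη]; positivity
  have hηng : η * (n * g) = 2 * R := by rw [hη]; field_simp
  have hpR : (p : ℝ) = m * g + 1 := by rw [hp]; push_cast; ring
  have hqR : (q : ℝ) = n * g + 1 := by rw [hq]; push_cast; ring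
  have hmnR : (m : ℝ) + 1 ≤ n := by exact_mod_cast hmn
  have hpq : (p : ℝ) ≤ q - g := by rw [hpR, hqR]; nlinarith
  rw [nsmul_coe, norm_coe] at h1 h2 ⊢
  set k := round ((p : ℝ) * y) with hk
  set l := round ((q : ℝ) * y) with hl
  have hp0 : (0 : ℝ) ≤ p := Nat.cast_nonneg _
  have hq0 : (0 : ℝ) ≤ q := Nat.cast_nonneg _
  have hkle : |(k : ℝ)| ≤ (p + 1) * η := by
    have e : (k : ℝ) = p * y - (p * y - k) := by ring
    rw [e]
    refine (abs_sub _ _).trans ?_
    rw [abs_mul, Nat.abs_cast]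
    nlinarith
  have hlle : |(l : ℝ)| ≤ (q + 1) * η := by
    have e : (l : ℝ) = q * y - (q * y - l) := by ring
    rw [e]
    refine (abs_sub _ _).trans ?_
    rw [abs_mul, Nat.abs_cast]
    nlinarith
  have hdet : |(k : ℝ) * q - l * p| ≤ η * (p + q) := by
    have e : (k : ℝ) * q - l * p = p * ((q : ℝ) * y - l) - q * ((p : ℝ) * y - k) := by ring
    rw [e]
    refine (abs_sub _ _).trans ?_
    rw [abs_mul, abs_mul, Nat.abs_cast, Nat.abs_cast]
    nlinarith
  have hzero : (k : ℤ) * n - l * m = 0 := by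
    by_contra hne
    have h5 : (1 : ℤ) ≤ |(k : ℤ) * n - l * m| := Int.one_le_abs hne
    have h6 : (1 : ℝ) ≤ |(k : ℝ) * n - l * m| := by exact_mod_cast h5
    have e : (g : ℝ) * ((k : ℝ) * n - l * m) = ((k : ℝ) * q - l * p) - (k - l) := by
      rw [hpR, hqR]; ring
    have h7 : (g : ℝ) * |(k : ℝ) * n - l * m| ≤ η * (p + q) + ((p + 1) * η + (q + 1) * η) := by
      have h8 : (g : ℝ) * |(k : ℝ) * n - l * m| = |(g : ℝ) * ((k : ℝ) * n - l * m)| := by
        rw [abs_mul, Nat.abs_cast]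
      rw [h8, e]
      refine (abs_sub _ _).trans ?_
      have h9 := abs_sub (k : ℝ) l
      linarith
    have h8 : η * (p + q) + ((p + 1) * η + (q + 1) * η) ≤ 8 * R := by
      have h9 : η * (p + q) + ((p + 1) * η + (q + 1) * η) = η * (2 * p + 2 * q + 2) := by ring
      have h10 : (2 : ℝ) * p + 2 * q + 2 ≤ 4 * (n * g) := by
        rw [hpR, hqR]
        nlinarith
      rw [h9]
      calc η * (2 * p + 2 * q + 2) ≤ η * (4 * (n * g)) := by gcongr
        _ = 4 * (η * (n * g)) := by ring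
        _ = 8 * R := by rw [hηng]; ring
    nlinarith
  have h5 : (n : ℤ) ∣ m * l := ⟨k, by linarith⟩
  have h6 : (n : ℤ) ∣ l := by
    apply Int.dvd_of_dvd_mul_right_of_gcd_one h5
    rw [Int.gcd_natCast_natCast]
    exact hco.symm
  have hl0 : l = 0 := by
    by_contra hne
    have h7 : (n : ℤ) ≤ |l| := Int.le_of_dvd (abs_pos.2 hne) ((dvd_abs _ _).2 h6)
    have h8 : (n : ℝ) ≤ |(l : ℝ)| := by exact_mod_cast h7
    have h9 : ((q : ℝ) + 1) * η ≤ 6 * R := by
      have h10 : (q : ℝ) + 1 ≤ 3 * (n * g) := by rw [hqR]; linarith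
      calc ((q : ℝ) + 1) * η ≤ 3 * (n * g) * η := by gcongr
        _ = 3 * (η * (n * g)) := by ring
        _ = 6 * R := by rw [hηng]; ring
    linarith
  have hk0 : k = 0 := by
    rw [hl0, zero_mul, sub_zero] at hzero
    rcases mul_eq_zero.1 hzero with h | h
    · exact h
    · exfalso
      have : (n : ℝ) = 0 := by exact_mod_cast h
      linarith
  rw [hk0]
  simp only [Int.cast_zero, sub_zero]
  rw [abs_mul, Nat.abs_cast, hy]

end Pool.Agent.N254.FP
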