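import Mathlib
import Pool.Agent.N254.FP.Arith

/-!
Common fixed points maximise: the dynamical argument.
-/

set_option autoImplicit false

open MeasureTheory

namespace Pool.Agent.N254.FP

/-- A function with a quadratic maximum. -/
structure QM (F : T → ℝ) (x₀ : T) (K κ δ : ℝ) : Prop where
  hκ : 0 < κ
  hK : κ ≤ K
  hδ : 0 < δ
  cont : Continuous F
  far : ∀ u : T, κ * ‖u - x₀‖ ^ 2 ≤ F x₀ - F u
  near : ∀ u v : T, ‖u - x₀‖ ≤ δ → ‖v - x₀‖ ≤ δ →
    F u - F v ≤ K * (‖u - x₀‖ + ‖v - x₀‖) * ‖u - v‖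

lemma real_preimage {μ : Measure T} {r : ℕ} (h : MeasurePreserving (fun x : T => r • x) μ μ)
    {S : Set T} (hS : MeasurableSet S) : μ.real {x | r • x ∈ S} = μ.real S := by
  have := h.measure_preimage hS.nullMeasurableSet
  rw [Measure.real, Measure.real, ← this]
  rfl

lemma int_comp {μ : Measure T} {r : ℕ} (h : MeasurePreserving (fun x : T => r • x) μ μ)
    {f : T → ℝ} (hf : Measurable f) : ∫ x, f (r • x) ∂μ = ∫ x, f x ∂μ := by
  have h1 := integral_map (μ := μ) h.measurable.aemeasurable (f := f)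
    (by rw [h.map_eq]; exact hf.aestronglyMeasurable)
  rw [h.map_eq] at h1
  exact h1.symm

lemma int_bdd {μ : Measure T} [IsProbabilityMeasure μ] {f : T → ℝ} (hf : Measurable f) {C : ℝ}
    (hC : ∀ x, |f x| ≤ C) : Integrable f μ :=
  Integrable.of_bound (C := C) hf.aestronglyMeasurable
    (Filter.Eventually.of_forall fun x => by rw [Real.norm_eq_abs]; exact hC x)

/-- nearest common fixed point -/
lemma exists_fix {g : ℕ} (hg : 0 < g) (x : T) : ∃ z : T, g • z = 0 ∧ ‖x - z‖ ≤ ‖g • x‖ / g ∧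
    ‖x - z‖ ≤ 1 / (2 * g) := by
  obtain ⟨y, rfl, hy⟩ := exists_rep x
  have hgR : (0 : ℝ) < g := by exact_mod_cast hg
  set k := round ((g : ℝ) * y) with hk
  refine ⟨((k / g : ℝ) : T), ?_, ?_, ?_⟩
  · rw [nsmul_coe, mul_div_cancel₀ _ hgR.ne', AddCircle.coe_eq_zero_iff]
    exact ⟨k, by simp⟩
  · rw [← AddCircle.coe_sub]
    refine (norm_coe_le _).trans ?_
    rw [nsmul_coe, norm_coe, le_div_iff₀ hgR, ← hk]
    have e : (g : ℝ) * y - k = (y - k / g) * g := by field_simp
    rw [e, abs_mul, Nat.abs_cast]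
  · rw [← AddCircle.coe_sub]
    refine (norm_coe_le _).trans ?_
    have h1 : |(g : ℝ) * y - k| ≤ 1 / 2 := abs_sub_round _
    have e : (g : ℝ) * y - k = (y - k / g) * g := by field_simp
    rw [e, abs_mul, Nat.abs_cast] at h1
    rw [le_div_iff₀ (by positivity)]
    linarith

theorem dyn {F : T → ℝ} {x₀ : T} {K κ δ : ℝ} (Q : QM F x₀ K κ δ) {m n g p q : ℕ} (hm : 1 ≤ m)
    (hmn : m < n) (hco : m.Coprime n) (hp : p = m * g + 1) (hq : q = n * g + 1) {R : ℝ}
    (hR : R = 6 * K / κ) (hg : 16 * R < g) (hn : 6 * R < n) (hmng : 2 * R * (m + n) < g)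
    (hδg : 2 * R ≤ δ * g) (t : T) :
    ∃ z : T, g • z = 0 ∧ ∀ μ : Measure T, IsProbabilityMeasure μ →
      MeasurePreserving (fun x : T => p • x) μ μ → MeasurePreserving (fun x : T => q • x) μ μ →
        ∫ x, F (x - t) ∂μ ≤ F (z - t) ∧
          (∫ x, F (x - t) ∂μ = F (z - t) → ∀ᵐ x ∂μ, g • x = 0) := by
  classical
  have hκ := Q.hκ
  have hK := Q.hK
  have hδ := Q.hδ
  have hK0 : 0 < K := lt_of_lt_of_le hκ hK
  have hR6 : 6 ≤ R := by
    rw [hR, le_div_iff₀ hκ]; linarith
  have hκR : κ * R = 6 * K := by rw [hR]; field_simp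
  have hgR : (0 : ℝ) < g := by linarith
  have hg0 : 0 < g := by exact_mod_cast hgR
  have hnR : (0 : ℝ) < n := by linarith
  have hn1 : 1 ≤ n := by omega
  have hmR : (1 : ℝ) ≤ m := by exact_mod_cast hm
  set a : T := t + x₀ with ha
  have hat : ∀ x : T, x - t - x₀ = x - a := fun x => by rw [ha]; abel
  set r : ℝ := R / g with hr
  have hr0 : 0 < r := by positivity
  have hrδ : 2 * r ≤ δ := by
    rw [hr, ← mul_div_assoc, div_le_iff₀ hgR]; exact hδg
  set η : ℝ := 2 * R / (n * g) with hη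
  have hη0 : 0 < η := by positivity
  -- the best fixed point
  have hfin : {z : T | g • z = 0}.Finite := AddCircle.finite_torsion (p := (1 : ℝ)) hg0
  obtain ⟨z, hz, hzmax⟩ := Set.exists_max_image {z : T | g • z = 0} (fun z => F (z - t)) hfin
    ⟨0, by simp⟩
  refine ⟨z, hz, ?_⟩
  set M := F (z - t) with hM
  have hMmax : ∀ z' : T, g • z' = 0 → F (z' - t) ≤ M := hzmax
  have hMlow : F x₀ - K / (4 * g ^ 2) ≤ M := by
    obtain ⟨z₁, hz₁, -, hz₁a⟩ := exists_fix hg0 a
    have h1 := hMmax z₁ hz₁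
    have h2 : ‖z₁ - t - x₀‖ = ‖a - z₁‖ := by rw [hat, norm_sub_rev]
    have h3 : ‖z₁ - t - x₀‖ ≤ δ := by
      rw [h2]
      refine hz₁a.trans ?_
      rw [div_le_iff₀ (by positivity)]
      nlinarith
    have h4 := Q.near x₀ (z₁ - t) (by simpa using hδ.le) h3
    rw [sub_self, norm_zero, zero_add, norm_sub_rev x₀, h2] at h4
    have h5 : K * ‖a - z₁‖ * ‖a - z₁‖ ≤ K / (4 * g ^ 2) := by
      have h6 : ‖a - z₁‖ * ‖a - z₁‖ ≤ (1 / (2 * g)) * (1 / (2 * g)) :=
        mul_le_mul hz₁a hz₁a (norm_nonneg _) (by positivity)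
      calc K * ‖a - z₁‖ * ‖a - z₁‖ = K * (‖a - z₁‖ * ‖a - z₁‖) := by ring
        _ ≤ K * ((1 / (2 * g)) * (1 / (2 * g))) := by gcongr
        _ = K / (4 * g ^ 2) := by field_simp; norm_num
    linarith
  -- the sets
  set B : Set T := {x | ‖x - a‖ ≤ r} with hB
  have hBm : MeasurableSet B := by
    apply IsClosed.measurableSet
    exact isClosed_le (by fun_prop) continuous_const
  have hpm : Measurable fun x : T => p • x := by fun_prop
  have hqm : Measurable fun x : T => q • x := by fun_prop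
  set C1 : Set T := {x | x ∈ B ∧ p • x ∈ B ∧ q • x ∈ B} with hC1
  have hC1m : MeasurableSet C1 := hBm.inter ((hpm hBm).inter (hqm hBm))
  set C2 : Set T := {x | x ∈ C1 ∧ p • x ∈ C1 ∧ q • x ∈ C1} with hC2
  have hC2m : MeasurableSet C2 := hC1m.inter ((hpm hC1m).inter (hqm hC1m))
  set φ : T → ℝ := fun x => ‖g • x‖ with hφ
  have hφm : Measurable φ := by
    have : Continuous φ := by rw [hφ]; fun_prop
    exact this.measurable
  have hφle : ∀ x, φ x ≤ 1 / 2 := by
    intro x
    have := AddCircle.norm_le_half_period (p := (1 : ℝ)) (x := g • x) one_ne_zero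
    rwa [abs_one] at this
  -- the first core
  have hcore : ∀ x ∈ C1, φ x ≤ η := by
    intro x hx
    obtain ⟨h1, h2, h3⟩ := hx
    have key : ∀ (j s : ℕ), s = j * g + 1 → s • x ∈ B → ‖j • (g • x)‖ ≤ 2 * r := by
      intro j s hs h4
      have e : j • (g • x) = (s • x - a) - (x - a) := by
        rw [hs, add_nsmul, one_nsmul, mul_nsmul']
        abel
      rw [e]
      refine (norm_sub_le _ _).trans ?_
      have h5 : ‖s • x - a‖ ≤ r := h4
      have h6 : ‖x - a‖ ≤ r := h1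
      linarith
    have h4 := core_arith hn1 hco (s := 2 * r) (by
      rw [hr]
      have e : 2 * (R / g) * (m + n) = 2 * R * (m + n) / g := by ring
      rw [e, div_lt_one hgR]
      exact hmng) (key m p hp h2) (key n q hq h3)
    rw [hη]
    rw [le_div_iff₀ (by positivity)]
    have e : φ x * (n * g) = (n * ‖g • x‖) * g := by rw [hφ]; ring
    rw [e]
    calc (n * ‖g • x‖) * g ≤ (2 * r) * g := by gcongr
      _ = 2 * R := by rw [hr]; field_simp
  -- the second core
  have hmult : ∀ x ∈ C2, φ (p • x) = p * φ x := by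
    intro x hx
    obtain ⟨h1, h2, h3⟩ := hx
    have h4 := hcore _ h1
    have h5 := hcore _ h2
    have h6 := hcore _ h3
    simp only [hφ] at h4 h5 h6 ⊢
    rw [smul_comm g p] at h5 ⊢
    rw [smul_comm g q] at h6
    exact core2_arith hmn hco hp hq (by linarith) hg hn hη h4 h5 h6
  have hC2C1 : C2 ⊆ C1 := fun x hx => hx.1
  have hC1B : C1 ⊆ B := fun x hx => hx.1
  -- the value at the points of the core
  have hval : ∀ x ∈ C1, F (x - t) - M ≤ 3 * K * R / g ^ 2 * φ x := by
    intro x hx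
    have h1 := hcore x hx
    have h2 : ‖x - a‖ ≤ r := hC1B hx
    obtain ⟨z', hz', hz'1, -⟩ := exists_fix hg0 x
    have h3 := hMmax z' hz'
    have h4 : ‖x - z'‖ ≤ r := by
      refine hz'1.trans ?_
      rw [hr]
      apply div_le_div_of_nonneg_right _ hgR.le
      refine h1.trans ?_
      rw [hη, div_le_iff₀ (by positivity)]
      have hn2 : (1 : ℝ) ≤ n := by exact_mod_cast hn1
      have hng : (2 : ℝ) ≤ n * g := by nlinarith
      nlinarith
    have h5 : ‖z' - a‖ ≤ 2 * r := by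
      have e : z' - a = (x - a) - (x - z') := by abel
      rw [e]
      refine (norm_sub_le _ _).trans ?_
      linarith
    have h6 := Q.near (x - t) (z' - t) (by rw [hat]; linarith) (by rw [hat]; linarith)
    rw [hat, hat] at h6
    have e : x - t - (z' - t) = x - z' := by abel
    rw [e] at h6
    have h7 : K * (‖x - a‖ + ‖z' - a‖) * ‖x - z'‖ ≤ K * (3 * r) * (φ x / g) := by
      have h8 : ‖x - a‖ + ‖z' - a‖ ≤ 3 * r := by linarith
      have h9 : ‖x - z'‖ ≤ φ x / g := hz'1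
      gcongr
    have h8 : K * (3 * r) * (φ x / g) = 3 * K * R / g ^ 2 * φ x := by
      rw [hr]; field_simp
    linarith
  have hle : ∀ x, F (x - t) ≤ F x₀ := by
    intro x
    have h1 := Q.far (x - t)
    have h2 : 0 ≤ κ * ‖x - t - x₀‖ ^ 2 := by positivity
    linarith
  -- the pointwise inequality
  set ψ : T → ℝ := C2.indicator φ with hψ
  set i2 : T → ℝ := (C2ᶜ).indicator fun _ => (1 : ℝ) with hi2
  set iB : T → ℝ := (Bᶜ).indicator fun _ => (1 : ℝ) with hiB
  have hψm : Measurable ψ := hφm.indicator hC2m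
  have hi2m : Measurable i2 := measurable_const.indicator hC2m.compl
  have hiBm : Measurable iB := measurable_const.indicator hBm.compl
  have hψ0 : ∀ x, 0 ≤ ψ x := fun x => Set.indicator_nonneg (fun x _ => norm_nonneg _) x
  have hψ1 : ∀ x, |ψ x| ≤ 1 := by
    intro x
    rw [abs_of_nonneg (hψ0 x)]
    rw [hψ]
    by_cases hx : x ∈ C2
    · rw [Set.indicator_of_mem hx]
      have := hφle x
      linarith
    · rw [Set.indicator_of_notMem hx]; norm_num
  have hi01 : ∀ (S : Set T) (x : T), |S.indicator (fun _ => (1 : ℝ)) x| ≤ 1 := by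
    intro S x
    by_cases hx : x ∈ S
    · rw [Set.indicator_of_mem hx]; norm_num
    · rw [Set.indicator_of_notMem hx]; norm_num
  have hpt : ∀ x, F (x - t) - M ≤ 3 * K * R / g ^ 2 * ψ x + K / (4 * g ^ 2) * i2 x -
      κ * R ^ 2 / g ^ 2 * iB x := by
    intro x
    by_cases hxB : x ∈ B
    · have e1 : iB x = 0 := by
        rw [hiB, Set.indicator_of_notMem]; simpa using hxB
      by_cases hx2 : x ∈ C2
      · have e2 : i2 x = 0 := by
          rw [hi2, Set.indicator_of_notMem]; simpa using hx2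
        have e3 : ψ x = φ x := by rw [hψ, Set.indicator_of_mem hx2]
        rw [e1, e2, e3]
        have := hval x (hC2C1 hx2)
        linarith
      · have e2 : i2 x = 1 := by
          rw [hi2, Set.indicator_of_mem]; simpa using hx2
        have e3 : ψ x = 0 := by rw [hψ, Set.indicator_of_notMem hx2]
        rw [e1, e2, e3]
        have := hle x
        linarith
    · have hx2 : x ∉ C2 := fun h => hxB (hC1B (hC2C1 h))
      have e1 : iB x = 1 := by
        rw [hiB, Set.indicator_of_mem]; simpa using hxB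
      have e2 : i2 x = 1 := by
        rw [hi2, Set.indicator_of_mem]; simpa using hx2
      have e3 : ψ x = 0 := by rw [hψ, Set.indicator_of_notMem hx2]
      rw [e1, e2, e3]
      have h1 := Q.far (x - t)
      rw [hat] at h1
      have h2 : r < ‖x - a‖ := by
        simp only [hB, Set.mem_ofPred_eq, not_le] at hxB
        exact hxB
      have h3 : κ * R ^ 2 / g ^ 2 ≤ κ * ‖x - a‖ ^ 2 := by
        have h4 : r ^ 2 ≤ ‖x - a‖ ^ 2 := pow_le_pow_left₀ hr0.le h2.le 2
        calc κ * R ^ 2 / g ^ 2 = κ * r ^ 2 := by rw [hr]; field_simp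
          _ ≤ κ * ‖x - a‖ ^ 2 := by gcongr
      linarith
  have hrec : ∀ x, ψ x ≤ 1 / p * ψ (p • x) + η / p * i2 (p • x) := by
    intro x
    have hpR : (0 : ℝ) < p := by
      have : 0 < p := by omega
      exact_mod_cast this
    have hi0 : 0 ≤ i2 (p • x) := Set.indicator_nonneg (fun _ _ => zero_le_one) _
    by_cases hx2 : x ∈ C2
    · have e3 : ψ x = φ x := by rw [hψ, Set.indicator_of_mem hx2]
      have h1 := hmult x hx2
      have h2 : φ x = 1 / p * φ (p • x) := by rw [h1]; field_simp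
      by_cases hpx : p • x ∈ C2
      · have e4 : ψ (p • x) = φ (p • x) := by rw [hψ, Set.indicator_of_mem hpx]
        rw [e3, e4, ← h2]
        have : 0 ≤ η / p * i2 (p • x) := by positivity
        linarith
      · have e4 : ψ (p • x) = 0 := by rw [hψ, Set.indicator_of_notMem hpx]
        have e5 : i2 (p • x) = 1 := by
          rw [hi2, Set.indicator_of_mem]; simpa using hpx
        rw [e3, e4, e5, h2, mul_zero, zero_add, mul_one, one_div, ← div_eq_inv_mul]
        apply div_le_div_of_nonneg_right _ hpR.le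
        exact hcore _ hx2.2.1
    · have e3 : ψ x = 0 := by rw [hψ, Set.indicator_of_notMem hx2]
      rw [e3]
      have h1 := hψ0 (p • x)
      positivity
  -- integration
  intro μ hμ hμp hμq
  have Iψ : Integrable ψ μ := int_bdd hψm hψ1
  have Ii2 : Integrable i2 μ := int_bdd hi2m (hi01 _)
  have IiB : Integrable iB μ := int_bdd hiBm (hi01 _)
  have IF : Integrable (fun x => F (x - t)) μ := by
    have : Continuous fun x : T => F (x - t) := Q.cont.comp (by fun_prop)
    exact this.integrable_of_hasCompactSupport (HasCompactSupport.of_compactSpace _)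
  have ei2 : ∫ x, i2 x ∂μ = μ.real C2ᶜ := by
    rw [hi2, integral_indicator hC2m.compl]; simp
  have eiB : ∫ x, iB x ∂μ = μ.real Bᶜ := by
    rw [hiB, integral_indicator hBm.compl]; simp
  have hm3 : ∀ (S S' : Set T), MeasurableSet S → S' = {x | x ∈ S ∧ p • x ∈ S ∧ q • x ∈ S} →
      μ.real S'ᶜ ≤ 3 * μ.real Sᶜ := by
    intro S S' hS hS'
    have h1 : S'ᶜ ⊆ Sᶜ ∪ ({x | p • x ∈ Sᶜ} ∪ {x | q • x ∈ Sᶜ}) := by
      intro x hx
      rw [hS'] at hx
      simp only [Set.mem_compl_iff, Set.mem_ofPred_eq, Set.mem_union] at hx ⊢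
      tauto
    have h2 := measureReal_mono (μ := μ) h1
    have h3 := measureReal_union_le (μ := μ) Sᶜ ({x | p • x ∈ Sᶜ} ∪ {x | q • x ∈ Sᶜ})
    have h4 := measureReal_union_le (μ := μ) {x | p • x ∈ Sᶜ} {x | q • x ∈ Sᶜ}
    rw [real_preimage hμp hS.compl, real_preimage hμq hS.compl] at h4
    linarith
  have hC1c := hm3 B C1 hBm hC1
  have hC2c := hm3 C1 C2 hC1m hC2
  have hC29 : μ.real C2ᶜ ≤ 9 * μ.real Bᶜ := by linarith
  have hpR2 : (1 : ℝ) < p := by
    have : 1 < p := by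
      rw [hp]
      have : 1 ≤ m * g := Nat.mul_pos hm hg0
      omega
    exact_mod_cast this
  have hpR : (0 : ℝ) < p := by linarith
  have hψint : (p - 1) * ∫ x, ψ x ∂μ ≤ η * μ.real C2ᶜ := by
    have Iψp : Integrable (fun x => ψ (p • x)) μ :=
      int_bdd (hψm.comp hpm) (fun x => hψ1 (p • x))
    have Ii2p : Integrable (fun x => i2 (p • x)) μ :=
      int_bdd (hi2m.comp hpm) (fun x => hi01 _ (p • x))
    have h1 : ∫ x, ψ x ∂μ ≤ ∫ x, (1 / p * ψ (p • x) + η / p * i2 (p • x)) ∂μ :=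
      integral_mono Iψ ((Iψp.const_mul _).add (Ii2p.const_mul _)) hrec
    rw [integral_add (Iψp.const_mul _) (Ii2p.const_mul _), integral_const_mul, integral_const_mul,
      int_comp hμp hψm, int_comp hμp hi2m, ei2] at h1
    have h2 : (p : ℝ) * ∫ x, ψ x ∂μ ≤ p * (1 / p * ∫ x, ψ x ∂μ + η / p * μ.real C2ᶜ) :=
      mul_le_mul_of_nonneg_left h1 hpR.le
    have h3 : (p : ℝ) * (1 / p * ∫ x, ψ x ∂μ + η / p * μ.real C2ᶜ) =
        ∫ x, ψ x ∂μ + η * μ.real C2ᶜ := by field_simp
    linarith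
  have hψnn : 0 ≤ ∫ x, ψ x ∂μ := integral_nonneg hψ0
  have hBc0 : 0 ≤ μ.real Bᶜ := measureReal_nonneg
  have hmain : ∫ x, F (x - t) ∂μ - M ≤ -(K / g ^ 2) * μ.real Bᶜ := by
    have h1 : ∫ x, (F (x - t) - M) ∂μ ≤ ∫ x, (3 * K * R / g ^ 2 * ψ x + K / (4 * g ^ 2) * i2 x -
        κ * R ^ 2 / g ^ 2 * iB x) ∂μ :=
      integral_mono (IF.sub (integrable_const _))
        (((Iψ.const_mul _).add (Ii2.const_mul _)).sub (IiB.const_mul _)) hpt
    have E1 : ∫ x, (F (x - t) - M) ∂μ = ∫ x, F (x - t) ∂μ - M := by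
      rw [integral_sub IF (integrable_const _), integral_const, probReal_univ, one_smul]
    have E2 : ∫ x, (3 * K * R / g ^ 2 * ψ x + K / (4 * g ^ 2) * i2 x -
        κ * R ^ 2 / g ^ 2 * iB x) ∂μ = ∫ x, (3 * K * R / g ^ 2 * ψ x + K / (4 * g ^ 2) * i2 x) ∂μ -
        ∫ x, κ * R ^ 2 / g ^ 2 * iB x ∂μ :=
      integral_sub (f := fun x => 3 * K * R / g ^ 2 * ψ x + K / (4 * g ^ 2) * i2 x)
        (g := fun x => κ * R ^ 2 / g ^ 2 * iB x)
        ((Iψ.const_mul _).add (Ii2.const_mul _)) (IiB.const_mul _)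
    have E3 : ∫ x, (3 * K * R / g ^ 2 * ψ x + K / (4 * g ^ 2) * i2 x) ∂μ =
        ∫ x, 3 * K * R / g ^ 2 * ψ x ∂μ + ∫ x, K / (4 * g ^ 2) * i2 x ∂μ :=
      integral_add (Iψ.const_mul _) (Ii2.const_mul _)
    rw [E1, E2, E3, integral_const_mul, integral_const_mul, integral_const_mul, ei2, eiB] at h1
    refine h1.trans ?_
    -- bound of the first term
    have hpg : (g : ℝ) ≤ p - 1 := by
      have e : (p : ℝ) = m * g + 1 := by rw [hp]; push_cast; ring
      rw [e]; nlinarith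
    have hη1 : η ≤ 1 / 3 := by
      rw [hη, div_le_iff₀ (by positivity)]
      nlinarith
    have h2 : ∫ x, ψ x ∂μ ≤ 3 / g * μ.real Bᶜ := by
      have h3 : (g : ℝ) * ∫ x, ψ x ∂μ ≤ (p - 1) * ∫ x, ψ x ∂μ :=
        mul_le_mul_of_nonneg_right hpg hψnn
      have h4 : η * μ.real C2ᶜ ≤ 1 / 3 * (9 * μ.real Bᶜ) :=
        mul_le_mul hη1 hC29 measureReal_nonneg (by norm_num)
      rw [div_mul_eq_mul_div, le_div_iff₀ hgR]
      linarith
    have h3 : 3 * K * R / g ^ 2 * ∫ x, ψ x ∂μ ≤ K / g ^ 2 * μ.real Bᶜ := by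
      calc 3 * K * R / g ^ 2 * ∫ x, ψ x ∂μ ≤ 3 * K * R / g ^ 2 * (3 / g * μ.real Bᶜ) := by
            gcongr
        _ = K / g ^ 2 * μ.real Bᶜ * (9 * R / g) := by ring
        _ ≤ K / g ^ 2 * μ.real Bᶜ * 1 := by
            have h4 : 9 * R / g ≤ 1 := by rw [div_le_one hgR]; linarith
            gcongr
        _ = K / g ^ 2 * μ.real Bᶜ := mul_one _
    have h4 : K / (4 * g ^ 2) * μ.real C2ᶜ ≤ 9 / 4 * (K / g ^ 2) * μ.real Bᶜ := by
      calc K / (4 * g ^ 2) * μ.real C2ᶜ ≤ K / (4 * g ^ 2) * (9 * μ.real Bᶜ) := by gcongr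
        _ = 9 / 4 * (K / g ^ 2) * μ.real Bᶜ := by field_simp
    have h5 : 36 * (K / g ^ 2) * μ.real Bᶜ ≤ κ * R ^ 2 / g ^ 2 * μ.real Bᶜ := by
      apply mul_le_mul_of_nonneg_right _ hBc0
      have e : κ * R ^ 2 = 6 * K * R := by
        rw [sq, ← mul_assoc, hκR]
      rw [e, ← mul_div_assoc]
      apply div_le_div_of_nonneg_right _ (by positivity)
      nlinarith
    have h6 : 0 ≤ K / g ^ 2 * μ.real Bᶜ := by positivity
    linarith
  constructor
  · have h1 : 0 ≤ K / g ^ 2 * μ.real Bᶜ := by positivity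
    linarith
  · intro heq
    rw [heq, sub_self] at hmain
    have hB0 : μ.real Bᶜ = 0 := by
      have h1 : 0 < K / g ^ 2 := by positivity
      have h2 : K / g ^ 2 * μ.real Bᶜ ≤ 0 := by linarith
      have h3 : μ.real Bᶜ ≤ 0 := by
        by_contra h4
        push Not at h4
        have := mul_pos h1 h4
        linarith
      exact le_antisymm h3 hBc0
    have hC20 : μ.real C2ᶜ = 0 := le_antisymm (by rw [hB0, mul_zero] at hC29; exact hC29)
      measureReal_nonneg
    have hψ00 : ∫ x, ψ x ∂μ = 0 := by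
      rw [hC20, mul_zero] at hψint
      apply le_antisymm _ hψnn
      by_contra h4
      push Not at h4
      have := mul_pos (by linarith : (0 : ℝ) < p - 1) h4
      linarith
    rw [integral_eq_zero_iff_of_nonneg hψ0 Iψ] at hψ00
    have hC2ae : ∀ᵐ x ∂μ, x ∈ C2 := by
      rw [ae_iff]
      have : μ C2ᶜ = 0 := by
        rwa [measureReal_eq_zero_iff] at hC20
      exact this
    filter_upwards [hψ00, hC2ae] with x hx hx2
    rw [hψ, Set.indicator_of_mem hx2] at hx
    exact norm_eq_zero.1 hx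

end Pool.Agent.N254.FP
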