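import Mathlib
import Pool.Agent.N254.FP.Dyn
import Pool.Agent.Y315.CF.Polygon
import Pool.Agent.Y315.CF.Indep

/-!
Common fixed points maximise as soon as `q ≤ c (gcd (p - 1, q - 1)) ^ 2`.
-/

set_option autoImplicit false

open MeasureTheory Pool.Agent.Y315.CF

namespace Pool.Agent.N254.FP

lemma qm_of_nd {F : T → ℝ} (hc : Continuous F) {a : ℝ} {K κ δ : ℝ}
    (N : Nd (fun x : ℝ => F (((a + x : ℝ)) : T)) K κ δ) :
    QM F (a : T) (2 * K) κ (min δ (1 / 4)) := by
  have hK := N.hK
  have hδ := N.hδ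
  have hval : ∀ (u : T) (y : ℝ), (y : T) = u - (a : T) → F (((a + y : ℝ)) : T) = F u := by
    intro u y hy
    rw [AddCircle.coe_add, hy]
    congr 1
    abel
  refine ⟨N.hκ, ?_, by positivity, hc, ?_, ?_⟩
  · have := N.hκK
    linarith
  · intro u
    obtain ⟨y, hy, hyn⟩ := Pool.Agent.N254.FP.exists_rep (u - (a : T))
    have h1 : |y| ≤ 3 / 4 := by
      rw [hyn]
      have := AddCircle.norm_le_half_period (p := (1 : ℝ)) (x := u - (a : T)) one_ne_zero
      rw [abs_one] at this
      linarith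
    have h2 := N.far y h1
    simp only [hval u y hy, add_zero] at h2
    rw [← hyn, sq_abs]
    exact h2
  · intro u v hu hv
    obtain ⟨y, hy, hyn⟩ := Pool.Agent.N254.FP.exists_rep (u - (a : T))
    obtain ⟨z, hz, hzn⟩ := Pool.Agent.N254.FP.exists_rep (v - (a : T))
    rw [← hyn] at hu ⊢
    rw [← hzn] at hv ⊢
    have hy1 : |y| ≤ δ := hu.trans (min_le_left _ _)
    have hz1 : |z| ≤ δ := hv.trans (min_le_left _ _)
    have hy2 : |y| ≤ 1 / 4 := hu.trans (min_le_right _ _)
    have hz2 : |z| ≤ 1 / 4 := hv.trans (min_le_right _ _)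
    have huv : ‖u - v‖ = |y - z| := by
      have e : u - v = ((y - z : ℝ) : T) := by
        rw [AddCircle.coe_sub, hy, hz]; abel
      rw [e]
      apply norm_coe_eq
      have := abs_sub y z
      linarith
    rw [huv]
    have h1 := N.tan z y hz1 hy1
    have h2 := N.der z hz1
    rw [hval u y hy, hval v z hz] at h1
    set D := deriv (fun x : ℝ => F (((a + x : ℝ)) : T)) z with hD
    have h3 : |D| ≤ 2 * K * |z| := by
      have h4 : |D| ≤ |D + K * z| + |K * z| := by
        have := abs_sub (D + K * z) (K * z)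
        rwa [add_sub_cancel_right] at this
      rw [abs_mul, abs_of_pos hK] at h4
      have h5 : 0 ≤ K * |z| := by positivity
      linarith
    have h4 : D * (y - z) ≤ 2 * K * |z| * |y - z| := by
      calc D * (y - z) ≤ |D * (y - z)| := le_abs_self _
        _ = |D| * |y - z| := abs_mul _ _
        _ ≤ 2 * K * |z| * |y - z| := mul_le_mul_of_nonneg_right h3 (abs_nonneg _)
    have h5 : 0 ≤ 99 / 200 * K * (y - z) ^ 2 := by positivity
    have h6 : 2 * K * |z| * |y - z| ≤ 2 * K * (|y| + |z|) * |y - z| := by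
      gcongr
      have := abs_nonneg y
      linarith
    linarith

/-- **Main theorem, common fixed points maximise, sharp range.** -/
theorem main2 (F : UnitAddCircle → ℝ) (hF : ContDiff ℝ 2 fun x : ℝ => F (x : UnitAddCircle))
    (x₀ : UnitAddCircle) (hmax : ∀ y, y ≠ x₀ → F y < F x₀)
    (hnd : deriv (deriv fun x : ℝ => F (x₀ + (x : UnitAddCircle))) 0 < 0) :
    ∃ C : ℝ, ∀ p q : ℕ, 1 < p → p < q →
      C * (q : ℝ) ≤ (((p - 1).gcd (q - 1) : ℕ) : ℝ) ^ 2 →
      ∀ t : UnitAddCircle, ∃ z : UnitAddCircle, p • z = z ∧ q • z = z ∧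
        ∀ μ : Measure UnitAddCircle, IsProbabilityMeasure μ →
          MeasurePreserving (fun x => p • x) μ μ → MeasurePreserving (fun x => q • x) μ μ →
          ∫ x, F (x - t) ∂μ ≤ F (z - t) ∧
            (∫ x, F (x - t) ∂μ = F (z - t) → ∀ᵐ x ∂μ, p • x = x ∧ q • x = x) := by
  obtain ⟨C₀, hC₀⟩ := Pool.Agent.Y315.CF.main F hF x₀ hmax hnd
  obtain ⟨a, rfl⟩ := QuotientAddGroup.mk_surjective x₀
  set f : ℝ → ℝ := fun x => F (((a + x : ℝ)) : UnitAddCircle) with hf
  have cf : ContDiff ℝ 2 f := hF.comp (contDiff_const.add contDiff_id)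
  have pf : Function.Periodic f 1 := by
    intro x
    simp only [hf]
    congr 1
    rw [show a + (x + 1) = (a + x) + 1 by ring]
    exact AddCircle.coe_add_period 1 (a + x)
  have hfmax : ∀ x : ℝ, (∀ k : ℤ, x ≠ (k : ℝ)) → f x < f 0 := by
    intro x hx
    have h1 : ((a + x : ℝ) : UnitAddCircle) ≠ ((a : ℝ) : UnitAddCircle) := by
      intro h
      rw [coe_eq_coe] at h
      obtain ⟨k, hk⟩ := h
      exact hx k (by linarith)
    have h2 := hmax _ h1
    simp only [hf, add_zero]
    exact h2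
  have hfnd : deriv (deriv f) 0 < 0 := by
    have : f = fun x : ℝ => F ((QuotientAddGroup.mk a : UnitAddCircle) + (x : UnitAddCircle)) := by
      funext x; simp only [hf, AddCircle.coe_add]
    rw [this]; exact hnd
  obtain ⟨K, κ, δ, N⟩ := nd_of_smooth cf pf hfmax hfnd
  have hFc : Continuous F := continuous_coinduced_dom.2 hF.continuous
  have Q := qm_of_nd hFc N
  set K' := 2 * K with hK'
  set δ' := min δ (1 / 4) with hδ'
  have hκ := Q.hκ
  have hK := Q.hK
  have hδ := Q.hδ
  have hK0 : 0 < K' := lt_of_lt_of_le hκ hK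
  set R := 6 * K' / κ with hR
  have hR6 : 6 ≤ R := by rw [hR, le_div_iff₀ hκ]; linarith
  refine ⟨17 * R + 2 * R / δ' + |C₀| * (6 * R + 1) ^ 5, fun p q hp hpq hC => ?_⟩
  obtain ⟨m, n, hm, hmn, hco, hpe, hqe⟩ := setup hp hpq
  set g := (p - 1).gcd (q - 1) with hg
  have hg0 : 0 < g := Nat.gcd_pos_of_pos_left _ (by omega)
  have hgR : (0 : ℝ) < g := by exact_mod_cast hg0
  have hn1 : (1 : ℝ) ≤ n := by exact_mod_cast (by omega : 1 ≤ n)
  have hng : (n : ℝ) * g ≤ q := by
    have : n * g ≤ q := by omega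
    exact_mod_cast this
  have hA : 0 < 2 * R / δ' := by positivity
  have hB : 0 ≤ |C₀| * (6 * R + 1) ^ 5 := by positivity
  set A := 2 * R / δ' with hAdef
  set B := |C₀| * (6 * R + 1) ^ 5 with hBdef
  have hCn : (17 * R + A + B) * n ≤ g := by
    have h1 : (17 * R + A + B) * (n * g) ≤ g ^ 2 :=
      (mul_le_mul_of_nonneg_left hng (by positivity)).trans hC
    have h2 : ((17 * R + A + B) * n) * g ≤ g * g := by nlinarith
    exact le_of_mul_le_mul_right h2 hgR
  have hCg : 17 * R + A + B ≤ g := by nlinarith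
  intro t
  rcases le_or_gt (n : ℝ) (6 * R) with hnR | hnR
  · -- few multiples: the earlier theorem
    refine hC₀ p q hp hpq ?_ t
    have hq1 : (q : ℝ) ≤ (6 * R + 1) * g := by
      have e : (q : ℝ) = n * g + 1 := by
        have : ((q : ℕ) : ℝ) = ((n * g + 1 : ℕ) : ℝ) := by rw [← hqe]
        rw [this]; push_cast; ring
      have h1 : (1 : ℝ) ≤ g := by exact_mod_cast hg0
      rw [e]; nlinarith
    calc C₀ * (q : ℝ) ^ 5 ≤ |C₀| * (q : ℝ) ^ 5 := by
          gcongr
          exact le_abs_self _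
      _ ≤ |C₀| * ((6 * R + 1) * g) ^ 5 := by gcongr
      _ = B * (g : ℝ) ^ 5 := by rw [hBdef]; ring
      _ ≤ g * (g : ℝ) ^ 5 := by
          apply mul_le_mul_of_nonneg_right _ (by positivity)
          linarith
      _ = (g : ℝ) ^ 6 := by ring
  · have hmn' : (m : ℝ) ≤ n := by exact_mod_cast hmn.le
    have hδg : 2 * R ≤ δ' * g := by
      have h1 : A ≤ g := by linarith
      have h2 := mul_le_mul_of_nonneg_left h1 hδ.le
      rw [hAdef, show δ' * (2 * R / δ') = 2 * R by field_simp] at h2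
      exact h2
    obtain ⟨z, hz, H⟩ := dyn Q hm hmn hco hpe hqe hR (by linarith) hnR (by nlinarith) hδg t
    refine ⟨z, nsmul_eq_self_of hpe hz, nsmul_eq_self_of hqe hz, fun μ hμ h1 h2 => ?_⟩
    have h3 := H μ hμ h1 h2
    refine ⟨h3.1, fun h => ?_⟩
    filter_upwards [h3.2 h] with x hx
    exact ⟨nsmul_eq_self_of hpe hx, nsmul_eq_self_of hqe hx⟩

/-- **The polygon of first Fourier coefficients, sharp range.** -/
theorem polygon2 : ∃ C : ℝ, ∀ p q : ℕ, 1 < p → p < q →
    C * (q : ℝ) ≤ (((p - 1).gcd (q - 1) : ℕ) : ℝ) ^ 2 →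
    Coef p q = convexHull ℝ {z : ℂ | z ^ (p - 1).gcd (q - 1) = 1} := by
  obtain ⟨C, hC⟩ := main2 cosC cosC_smooth 0 cosC_max cosC_nd
  refine ⟨C, fun p q hp hpq hg => ?_⟩
  obtain ⟨m, n, hm, hmn, hco, hpe, hqe⟩ := setup hp hpq
  have key := hC p q hp hpq hg
  set g := (p - 1).gcd (q - 1) with hgdef
  have hg0 : g ≠ 0 := (Nat.gcd_pos_of_pos_left _ (by omega)).ne'
  apply Set.Subset.antisymm
  · rintro c ⟨μ, hμ, hμp, hμq, rfl⟩
    by_contra hc
    have hfin : Set.Finite {z : ℂ | z ^ g = 1} := by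
      have : {z : ℂ | z ^ g = 1} ⊆ ((Polynomial.nthRoots g (1 : ℂ)).toFinset : Set ℂ) := by
        intro z hz
        simp only [Finset.mem_coe, Multiset.mem_toFinset]
        rw [Polynomial.mem_nthRoots (Nat.pos_of_ne_zero hg0)]
        exact hz
      exact (Finset.finite_toSet _).subset this
    obtain ⟨L, u, hL1, hL2⟩ := geometric_hahn_banach_closed_point (convex_convexHull ℝ _)
      (Set.Finite.isClosed_convexHull ℝ hfin) hc
    obtain ⟨r, t, hr, hrt⟩ := functional_form L
    obtain ⟨z, hpz, hqz, hz⟩ := key t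
    have h1 := (hz μ hμ hμp hμq).1
    have h2 : L (∫ x, fourier 1 x ∂μ) = r * ∫ x, cosC (x - t) ∂μ := by
      rw [← ContinuousLinearMap.integral_comp_comm L (fourier_integrable μ 1)]
      rw [← integral_const_mul]
      exact integral_congr_ae (Filter.Eventually.of_forall hrt)
    have h3 : L (fourier 1 z) < u := by
      apply hL1
      apply subset_convexHull
      show (fourier 1 z : ℂ) ^ g = 1
      rw [← fourier_nsmul']
      -- `g • z = 0`
      have e1 : (p - 1) • z = 0 := by
        have : (p - 1) • z + z = z := by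
          rw [← succ_nsmul, Nat.sub_add_cancel (by omega)]; exact hpz
        simpa using this
      have e2 : (q - 1) • z = 0 := by
        have : (q - 1) • z + z = z := by
          rw [← succ_nsmul, Nat.sub_add_cancel (by omega)]; exact hqz
        simpa using this
      have e3 : g • z = 0 := by
        have d1 := addOrderOf_dvd_of_nsmul_eq_zero e1
        have d2 := addOrderOf_dvd_of_nsmul_eq_zero e2
        exact (addOrderOf_dvd_iff_nsmul_eq_zero).1 (Nat.dvd_gcd d1 d2)
      rw [e3]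
      simp
    rw [h2] at hL2
    rw [hrt] at h3
    have := mul_le_mul_of_nonneg_left h1 hr
    linarith
  · apply convexHull_min _ (coef_convex p q)
    intro z hz
    exact root_mem hg0 hpe hqe hz

/-- log ratio irrational under the same condition -/
lemma irrational_of_no_pow {p q : ℕ} (hp : 1 < p) (hpq : p < q)
    (h : ∀ i j : ℕ, i ≠ 0 → p ^ i ≠ q ^ j) : Irrational (Real.log p / Real.log q) := by
  rintro ⟨r, hr⟩
  have hq1 : (1 : ℝ) < q := by exact_mod_cast (by omega : 1 < q)
  have hp1 : (1 : ℝ) < p := by exact_mod_cast hp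
  have lp : 0 < Real.log p := Real.log_pos hp1
  have lq : 0 < Real.log q := Real.log_pos hq1
  have hr0 : 0 < r := by
    have : (0 : ℝ) < (r : ℝ) := by rw [hr]; positivity
    exact_mod_cast this
  have hnum : (0 : ℤ) < r.num := Rat.num_pos.2 hr0
  obtain ⟨j, hj⟩ := Int.eq_ofNat_of_zero_le hnum.le
  have hrj : (r : ℝ) = j / r.den := by
    rw [Rat.cast_def, hj]; simp
  have hden : (0 : ℝ) < r.den := by exact_mod_cast r.den_pos
  have e : (r.den : ℝ) * Real.log p = j * Real.log q := by
    rw [hrj] at hr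
    field_simp at hr
    linarith
  have hpow : p ^ r.den = q ^ j := by
    have h1 : Real.log ((p : ℝ) ^ r.den) = Real.log ((q : ℝ) ^ j) := by
      rw [Real.log_pow, Real.log_pow]; exact e
    have h2 := Real.log_injOn_pos (Set.mem_Ioi.2 (by positivity)) (Set.mem_Ioi.2 (by positivity)) h1
    exact_mod_cast h2
  exact h _ _ r.den_pos.ne' hpow

end Pool.Agent.N254.FP
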