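import Mathlib
import Pool.Agent.N254.FP.Main

/-!
The range of the polygon theorem is optimal up to a constant.
-/

set_option autoImplicit false

open MeasureTheory Pool.Agent.Y315.CF

namespace Pool.Agent.N254.FP

lemma gcd_pair (g : ℕ) : ((4 * g + 1 - 1).gcd (2 * g ^ 2 + g + 1 - 1)) = g := by
  have h1 : 2 * g ^ 2 + g + 1 - 1 = g * (2 * g + 1) := by
    rw [Nat.add_sub_cancel]; ring
  have h2 : 4 * g + 1 - 1 = g * 4 := by rw [Nat.add_sub_cancel]; ring
  rw [h1, h2, Nat.gcd_mul_left]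
  have h3 : Nat.gcd 4 (2 * g + 1) = 1 := by
    have : Nat.Coprime (2 ^ 2) (2 * g + 1) := by
      apply Nat.Coprime.pow_left
      rw [Nat.coprime_two_left]
      exact ⟨g, rfl⟩
    exact this
  rw [h3, mul_one]

lemma no_pow {g : ℕ} (hg : 3 ≤ g) {i j : ℕ} (hi : i ≠ 0) :
    (4 * g + 1) ^ i ≠ (2 * g ^ 2 + g + 1) ^ j := by
  intro h
  obtain ⟨c, hc1, hc2⟩ := Nat.exists_eq_pow_of_pow_eq_pow (Or.inl hi) h
  have hgcd := gcd_pair g
  rw [hc1, hc2, Nat.pow_sub_one_gcd_pow_sub_one] at hgcd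
  set a := j / i.gcd j
  set b := i / i.gcd j
  have hc0 : 0 < c ^ a.gcd b := by omega
  have hcd : c ^ a.gcd b = g + 1 := by omega
  obtain ⟨k, hk⟩ := Nat.gcd_dvd_left a b
  have h1 : 4 * g + 1 = (g + 1) ^ k := by
    rw [← hcd, ← pow_mul, ← hk]; exact hc1
  rcases Nat.lt_or_ge k 2 with h2 | h2
  · interval_cases k
    · simp at h1; omega
    · rw [pow_one] at h1; omega
  · have h3 : (g + 1) ^ 2 ≤ (g + 1) ^ k := Nat.pow_le_pow_right (by omega) h2
    nlinarith

/-- the invariant measure on an orbit of length two -/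
lemma orbit_mem {p q : ℕ} {x₁ x₂ : T} (hp1 : p • x₁ = x₂) (hp2 : p • x₂ = x₁) (hq1 : q • x₁ = x₁)
    (hq2 : q • x₂ = x₂) :
    ((1 / 2 : ℝ) : ℂ) * ((fourier 1 x₁ : ℂ) + fourier 1 x₂) ∈ Coef p q := by
  set μ : Measure T := ENNReal.ofReal (1 / 2) • (Measure.dirac x₁ + Measure.dirac x₂) with hμ
  have hmp : ∀ r : ℕ, Measurable (fun x : T => r • x) := fun r => (continuous_nsmul r).measurable
  refine ⟨μ, ⟨?_⟩, ⟨hmp p, ?_⟩, ⟨hmp q, ?_⟩, ?_⟩
  · rw [hμ, Measure.smul_apply, Measure.add_apply, measure_univ, measure_univ, smul_eq_mul,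
      one_add_one_eq_two]
    rw [ENNReal.ofReal_div_of_pos (by norm_num), ENNReal.ofReal_one]
    rw [show ENNReal.ofReal 2 = 2 by simp]
    exact ENNReal.div_mul_cancel (by norm_num) (by norm_num)
  · rw [hμ, Measure.map_smul, Measure.map_add _ _ (hmp p), Measure.map_dirac' (hmp p),
      Measure.map_dirac' (hmp p), hp1, hp2, add_comm]
  · rw [hμ, Measure.map_smul, Measure.map_add _ _ (hmp q), Measure.map_dirac' (hmp q),
      Measure.map_dirac' (hmp q), hq1, hq2]
  · rw [hμ, integral_smul_measure, integral_add_measure (fourier_integrable _ 1)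
      (fourier_integrable _ 1), integral_dirac, integral_dirac,
      ENNReal.toReal_ofReal (by norm_num)]
    rfl

/-- The hull of the `g`-th roots of unity lies in a half plane. -/
lemma hull_halfplane {g : ℕ} (hg : 1 ≤ g) {c : ℂ}
    (hc : c ∈ convexHull ℝ {z : ℂ | z ^ g = 1}) :
    (c * Complex.exp (-(Real.pi / g : ℝ) * Complex.I)).re ≤ Real.cos (Real.pi / g) := by
  have hgR : (0 : ℝ) < g := by exact_mod_cast hg
  set w : ℂ := Complex.exp (-(Real.pi / g : ℝ) * Complex.I) with hw
  have hS : convexHull ℝ {z : ℂ | z ^ g = 1} ⊆ {z : ℂ | (z * w).re ≤ Real.cos (Real.pi / g)} := by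
    apply convexHull_min
    · intro z hz
      have hz1 : z ^ g = 1 := hz
      haveI : NeZero g := ⟨by omega⟩
      obtain ⟨i, hi, rfl⟩ := (Complex.isPrimitiveRoot_exp g (by omega)).eq_pow_of_pow_eq_one hz1
      have e1 : Complex.exp (2 * Real.pi * Complex.I / g) ^ i * w =
          Complex.exp (((2 * i - 1) * (Real.pi / g) : ℝ) * Complex.I) := by
        rw [hw, ← Complex.exp_nat_mul, ← Complex.exp_add]
        congr 1
        push_cast
        ring
      show (Complex.exp (2 * Real.pi * Complex.I / g) ^ i * w).re ≤ Real.cos (Real.pi / g)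
      rw [e1, Complex.exp_ofReal_mul_I_re]
      have hpi := Real.pi_pos
      have hpg : 0 < Real.pi / g := by positivity
      have hpgg : (Real.pi / g) * g = Real.pi := by field_simp
      rcases Nat.eq_zero_or_pos i with h0 | h0
      · rw [h0]
        apply le_of_eq
        rw [← Real.cos_neg]
        congr 1
        push_cast
        ring
      · have hiR : (1 : ℝ) ≤ i := by exact_mod_cast h0
        have hig : (i : ℝ) + 1 ≤ g := by exact_mod_cast hi
        set θ : ℝ := (2 * i - 1) * (Real.pi / g) with hθ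
        have h1 : Real.pi / g ≤ θ := by rw [hθ]; nlinarith
        have h2 : Real.pi / g ≤ 2 * Real.pi - θ := by
          have : 2 * Real.pi = (2 * g) * (Real.pi / g) := by rw [← hpgg]; field_simp
          rw [this, hθ]; nlinarith
        rcases le_or_gt θ Real.pi with h3 | h3
        · exact Real.cos_le_cos_of_nonneg_of_le_pi hpg.le h3 h1
        · rw [← Real.cos_two_pi_sub]
          exact Real.cos_le_cos_of_nonneg_of_le_pi hpg.le (by linarith) h2
    · intro x hx y hy s t hs ht hst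
      simp only [Set.mem_setOf_eq] at hx hy ⊢
      have e : ((s • x + t • y) * w).re = s * (x * w).re + t * (y * w).re := by
        rw [add_mul, Complex.add_re, smul_mul_assoc, smul_mul_assoc, Complex.smul_re,
          Complex.smul_re, smul_eq_mul, smul_eq_mul]
      rw [e]
      calc s * (x * w).re + t * (y * w).re
          ≤ s * Real.cos (Real.pi / g) + t * Real.cos (Real.pi / g) := by gcongr
        _ = Real.cos (Real.pi / g) := by rw [← add_mul, hst, one_mul]
  exact hS hc

/-- **Sharpness.** -/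
theorem sharp {g : ℕ} (hodd : Odd g) (hg : 3 ≤ g) :
    Coef (4 * g + 1) (2 * g ^ 2 + g + 1) ≠
      convexHull ℝ {z : ℂ | z ^ (4 * g + 1 - 1).gcd (2 * g ^ 2 + g + 1 - 1) = 1} := by
  rw [gcd_pair]
  have hgR : (3 : ℝ) ≤ g := by exact_mod_cast hg
  have hg' : (0 : ℝ) < 2 * g + 1 := by linarith
  set a : ℝ := 1 / (2 * g) - 1 / (2 * (2 * g + 1)) with ha
  set b : ℝ := 1 / (2 * g) + 1 / (2 * (2 * g + 1)) with hb
  obtain ⟨k, hk⟩ := hodd
  have hkR : (g : ℝ) = 2 * k + 1 := by rw [hk]; push_cast; ring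
  have hp1 : (4 * g + 1) • (a : T) = (b : T) := by
    rw [nsmul_coe, coe_eq_coe]
    refine ⟨1, ?_⟩
    rw [ha, hb]
    push_cast
    field_simp
    ring
  have hp2 : (4 * g + 1) • (b : T) = (a : T) := by
    rw [nsmul_coe, coe_eq_coe]
    refine ⟨3, ?_⟩
    rw [ha, hb]
    push_cast
    field_simp
    ring
  have hq1 : (2 * g ^ 2 + g + 1) • (a : T) = (a : T) := by
    rw [nsmul_coe, coe_eq_coe]
    refine ⟨k + 1, ?_⟩
    have e : ((2 * g ^ 2 + g + 1 : ℕ) : ℝ) * a - a = (g + 1) / 2 := by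
      rw [ha]
      push_cast
      field_simp
      ring
    rw [e, hkR]
    push_cast
    ring
  have hq2 : (2 * g ^ 2 + g + 1) • (b : T) = (b : T) := by
    rw [nsmul_coe, coe_eq_coe]
    refine ⟨3 * k + 2, ?_⟩
    have e : ((2 * g ^ 2 + g + 1 : ℕ) : ℝ) * b - b = (3 * g + 1) / 2 := by
      rw [hb]
      push_cast
      field_simp
      ring
    rw [e, hkR]
    push_cast
    ring
  intro heq
  have h1 := orbit_mem hp1 hp2 hq1 hq2
  rw [heq] at h1
  have h2 := hull_halfplane (by omega) h1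
  have e : ((1 / 2 : ℝ) : ℂ) * ((fourier 1 (a : T) : ℂ) + fourier 1 (b : T)) *
      Complex.exp (-(Real.pi / g : ℝ) * Complex.I) =
      ((Real.cos (Real.pi / (2 * g + 1)) : ℝ) : ℂ) := by
    rw [fourier_one_coe, fourier_one_coe]
    have e1 : (2 * Real.pi * a * Complex.I : ℂ) = (Real.pi / g : ℝ) * Complex.I +
        (-(Real.pi / (2 * g + 1) : ℝ)) * Complex.I := by
      have : 2 * Real.pi * a = Real.pi / g + -(Real.pi / (2 * g + 1)) := by
        rw [ha]; field_simp; ring
      have h3 : ((2 * Real.pi * a : ℝ) : ℂ) =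
        ((Real.pi / g + -(Real.pi / (2 * g + 1)) : ℝ) : ℂ) := by rw [this]
      push_cast at h3 ⊢
      rw [h3]; ring
    have e2 : (2 * Real.pi * b * Complex.I : ℂ) = (Real.pi / g : ℝ) * Complex.I +
        ((Real.pi / (2 * g + 1) : ℝ)) * Complex.I := by
      have : 2 * Real.pi * b = Real.pi / g + (Real.pi / (2 * g + 1)) := by
        rw [hb]; field_simp
      have h3 : ((2 * Real.pi * b : ℝ) : ℂ) =
        ((Real.pi / g + (Real.pi / (2 * g + 1)) : ℝ) : ℂ) := by rw [this]
      push_cast at h3 ⊢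
      rw [h3]; ring
    rw [e1, e2, Complex.exp_add, Complex.exp_add, Complex.ofReal_cos, Complex.cos]
    have e3 : Complex.exp ((Real.pi / g : ℝ) * Complex.I) *
        Complex.exp (-(Real.pi / g : ℝ) * Complex.I) = 1 := by
      rw [← Complex.exp_add]; simp
    set X := Complex.exp ((Real.pi / g : ℝ) * Complex.I)
    set Y := Complex.exp (-(Real.pi / g : ℝ) * Complex.I)
    have e4 : ((1 / 2 : ℝ) : ℂ) = 1 / 2 := by push_cast; ring
    rw [e4]
    linear_combination ((1 / 2 : ℂ) * (Complex.exp (-(Real.pi / (2 * g + 1) : ℝ) * Complex.I) +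
      Complex.exp ((Real.pi / (2 * g + 1) : ℝ) * Complex.I))) * e3
  rw [e, Complex.ofReal_re] at h2
  have hpi := Real.pi_pos
  have h3 : Real.cos (Real.pi / g) < Real.cos (Real.pi / (2 * g + 1)) := by
    apply Real.cos_lt_cos_of_nonneg_of_le_pi (by positivity)
    · apply div_le_self hpi.le; linarith
    · apply div_lt_div_of_pos_left hpi (by linarith) (by linarith)
  linarith

end Pool.Agent.N254.FP
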